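import Pool.Agent.helper80.EA.LowerMain
import Pool.Agent.helper80.EA.Upper

set_option autoImplicit false

open MeasureTheory ProbabilityTheory Filter
open scoped ENNReal

namespace Pool.Agent.Results.MP_dc81eb_lc.ThetaOrder

open Pool.Agent.helper80.EA

lemma rpow_eq {n : ℕ} (hn : 0 < n) : (n : ℝ) ^ (3 / 2 : ℝ) = n * Real.sqrt n := by
  have hn' : (0 : ℝ) < n := by exact_mod_cast hn
  rw [Real.sqrt_eq_rpow, show (3 / 2 : ℝ) = 1 + 1 / 2 by norm_num, Real.rpow_add hn',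
    Real.rpow_one]

lemma lower (n : ℕ) (hn : 484 ≤ n) :
    ENNReal.ofReal ((n : ℝ) ^ (3 / 2 : ℝ) / 3200) ≤ Tstar n := by
  refine le_trans (ENNReal.ofReal_le_ofReal ?_) (lower_bound hn)
  rw [rpow_eq (by omega)]
  have h1 : Real.sqrt n < Nat.sqrt n + 1 := Real.real_sqrt_lt_nat_sqrt_succ
  have h2 : (2 : ℝ) ≤ Real.sqrt n := by
    rw [show (2 : ℝ) = Real.sqrt 4 by
      rw [show (4 : ℝ) = 2 ^ 2 by norm_num, Real.sqrt_sq (by norm_num)]]
    apply Real.sqrt_le_sqrt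
    exact_mod_cast (by omega : 4 ≤ n)
  have h3 : Real.sqrt n / 2 ≤ Nat.sqrt n := by linarith
  have h4 : (0 : ℝ) ≤ n := by positivity
  have h5 := mul_le_mul_of_nonneg_left h3 h4
  linarith

lemma upper (n : ℕ) (hn : 2 ≤ n) :
    Tstar n ≤ ENNReal.ofReal (336 * (n : ℝ) ^ (3 / 2 : ℝ)) := by
  refine (upper_bound hn).trans (ENNReal.ofReal_le_ofReal ?_)
  rw [rpow_eq (by omega)]
  unfold gmax rt
  have h1 : (Nat.sqrt n : ℝ) ≤ Real.sqrt n := Real.nat_sqrt_le_real_sqrt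
  have h2 : (1 : ℝ) ≤ Real.sqrt n := by
    rw [← Real.sqrt_one]
    apply Real.sqrt_le_sqrt
    exact_mod_cast (by omega : 1 ≤ n)
  have h4 : (0 : ℝ) ≤ n := by positivity
  have h3 : ((Nat.sqrt n + 1 : ℕ) : ℝ) ≤ 2 * Real.sqrt n := by push_cast; linarith
  have h5 := mul_le_mul_of_nonneg_left h3 h4
  linarith

/-- **The order of `T*(n)` is `n^{3/2}`**, with explicit constants; in particular `T*(n)` is not
`O(n log n)`. -/
theorem result :
    (∀ n : ℕ, 484 ≤ n → ENNReal.ofReal ((n : ℝ) ^ (3 / 2 : ℝ) / 3200) ≤ Tstar n) ∧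
    (∀ n : ℕ, 2 ≤ n → Tstar n ≤ ENNReal.ofReal (336 * (n : ℝ) ^ (3 / 2 : ℝ))) ∧
    ¬ ∃ C : ℝ, ∀ᶠ n : ℕ in atTop, Tstar n ≤ ENNReal.ofReal (C * (n * Real.log n)) := by
  refine ⟨lower, upper, ?_⟩
  rintro ⟨C, hC⟩
  -- we may enlarge `C`
  have hlog : (fun x : ℝ => Real.log x) =o[atTop] fun x : ℝ => x ^ (1 / 2 : ℝ) :=
    isLittleO_log_rpow_atTop (by norm_num)
  have hlog' : (fun n : ℕ => Real.log (n : ℝ)) =o[atTop] fun n : ℕ => (n : ℝ) ^ (1 / 2 : ℝ) :=
    hlog.comp_tendsto tendsto_natCast_atTop_atTop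
  have hpos : (0 : ℝ) < 1 / (6400 * (|C| + 1)) := by positivity
  have hev := hlog'.bound hpos
  obtain ⟨n, ⟨hn1, hn2⟩, hn3⟩ := ((hC.and hev).and (eventually_ge_atTop 484)).exists
  have h1 := (lower n hn3).trans hn1
  have hn' : (0 : ℝ) < n := by
    have : 0 < n := by omega
    exact_mod_cast this
  have hsq : 0 < Real.sqrt n := Real.sqrt_pos.2 hn'
  rw [rpow_eq (by omega)] at h1
  have hle : (n : ℝ) * Real.sqrt n / 3200 ≤ C * (n * Real.log n) := by
    by_contra hlt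
    push Not at hlt
    have h2 : 0 < (n : ℝ) * Real.sqrt n / 3200 := by positivity
    have h3 := (ENNReal.ofReal_lt_ofReal_iff h2).2 hlt
    exact absurd h1 (not_le.2 h3)
  have hlogn : 0 ≤ Real.log n := Real.log_nonneg (by exact_mod_cast (by omega : 1 ≤ n))
  rw [Real.norm_of_nonneg hlogn, Real.norm_of_nonneg (by positivity), ← Real.sqrt_eq_rpow] at hn2
  have h4 : C * (n * Real.log n) ≤ (|C| + 1) * (n * Real.log n) := by
    apply mul_le_mul_of_nonneg_right _ (by positivity)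
    linarith [le_abs_self C]
  have h5 : (|C| + 1) * (n * Real.log n) ≤
      (|C| + 1) * (n * (1 / (6400 * (|C| + 1)) * Real.sqrt n)) := by
    apply mul_le_mul_of_nonneg_left _ (by positivity)
    exact mul_le_mul_of_nonneg_left hn2 hn'.le
  have h6 : (|C| + 1) * (n * (1 / (6400 * (|C| + 1)) * Real.sqrt n)) = n * Real.sqrt n / 6400 := by
    have : (0 : ℝ) < |C| + 1 := by positivity
    field_simp
  have h7 : 0 < (n : ℝ) * Real.sqrt n := by positivity
  linarith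

end Pool.Agent.Results.MP_dc81eb_lc.ThetaOrder
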